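import Pool.Agent.H87.EBK.Stmts2

/-!
# Row DSZ of the board `ebs`
-/

set_option autoImplicit false

namespace Pool.EBK

theorem dsz_u {a c u B : ℚ} (ha : 0 < a) (hc : 0 < c) (hB : 0 < B) (hcB : c ≤ B)
    (hu : u ^ 2 = a ^ 2 + c ^ 2) : u ≤ a + B := by
  by_contra h
  push Not at h
  have h1 : (a + B) ^ 2 < u ^ 2 := pow_lt_pow_left₀ h (by positivity) (by norm_num)
  nlinarith [mul_pos ha hB]

theorem dsz_w {b c w : ℚ} (hw0 : 0 < w)
    (hw : w ^ 2 = b ^ 2 + c ^ 2) : b ≤ w := by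
  by_contra h
  push Not at h
  have h1 : w ^ 2 < b ^ 2 := pow_lt_pow_left₀ h hw0.le (by norm_num)
  nlinarith [sq_nonneg c]

theorem dsz : DSZ := by
  intro a b c u w c' u' w' B ha hb hB h h' hc hc' hM hlt
  obtain ⟨c0, u0, w0, hu, hw⟩ := h
  obtain ⟨c0', u0', w0', hu', hw'⟩ := h'
  have huB := dsz_u ha c0 hB hc hu
  have huB' := dsz_u ha c0' hB hc' hu'
  have hwb := dsz_w w0 hw
  have hwb' := dsz_w w0' hw'
  have hMD : MD c u w c' u' w' = u * u' * (c' * w' / u' - c * w / u) := by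
    unfold MD
    field_simp
  have habs : |MD c u w c' u' w'| = u * u' * |c * w / u - c' * w' / u'| := by
    rw [hMD, abs_mul, abs_of_pos (mul_pos u0 u0'), abs_sub_comm]
  have hpos : 0 < |MD c u w c' u' w'| := abs_pos.2 hM
  rw [lt_div_iff₀ hpos, habs]
  have h1 : B * (u * u' * |c * w / u - c' * w' / u'|) <
      B * (u * u' * (a ^ 2 * b ^ 2 / ((a + B) ^ 2 * B))) :=
    mul_lt_mul_of_pos_left (mul_lt_mul_of_pos_left hlt (mul_pos u0 u0')) hB
  have h2 : B * (u * u' * (a ^ 2 * b ^ 2 / ((a + B) ^ 2 * B))) =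
      u * u' / (a + B) ^ 2 * (a ^ 2 * b ^ 2) := by
    field_simp
  have h3 : u * u' / (a + B) ^ 2 ≤ 1 := by
    rw [div_le_one (by positivity), sq]
    exact mul_le_mul huB huB' u0'.le (by positivity)
  have h4 : u * u' / (a + B) ^ 2 * (a ^ 2 * b ^ 2) ≤ 1 * (a ^ 2 * b ^ 2) :=
    mul_le_mul_of_nonneg_right h3 (by positivity)
  have h5 : b * b ≤ w * w' := mul_le_mul hwb hwb' hb.le w0.le
  have h6 : a ^ 2 * (b * b) ≤ a ^ 2 * (w * w') := mul_le_mul_of_nonneg_left h5 (by positivity)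
  have h7 : 0 < c * c' * u * u' := by positivity
  unfold ND
  nlinarith

end Pool.EBK
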