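import Pool.Agent.H87.EBK.Stmts2

/-!
# Row VTX3 of the board `ebs`
-/

set_option autoImplicit false

namespace Pool.EBK

theorem vtx3 (hA : VTX) (hB : STP3) : VTX3 := by
  intro q y1 y2 F hq h1 h2
  obtain ⟨b, _, _, hb⟩ := hA q ∅ hq
  obtain ⟨c, hc, hc1, hc2, _, hr, _⟩ := hB q b y1 y2 F hb h1 h2
  exact ⟨c, hc, hc1, hc2, hr⟩

end Pool.EBK
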